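import Pool.Agent.Results.MP_0bf1d2_nt.LinearFewExceptions
import Pool.Agent.N733.TG.K
import Pool.Agent.N733.TG.M
import Pool.Agent.N760.IT.D

/-!
# Schinzel's Goldbach-type hypothesis for `g = 1` and linear `G`, `F(n)` almost prime: all admissible integers
near the values of multiplicative functions, and near the values at the iterates of Euler's function

Let `F` be irreducible of degree `h` and `G` linear. For almost all `m`, EVERY admissible `N` with
`|N - V(f(m))| ≤ f(m)^κ` has at least `δ 𝔖(N) N / log² N` positive integers `n` for which `N - G(n)` is a prime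
and `F(n)` has at most `h + 1` prime factors, all of them at least `N^(1/9)`. Here `f` is a multiplicative
function like Euler's function or the sum of the divisors, `V` is any function with steps bounded below by a
positive constant and growth at most `v^d`, for example `V(v) = α v^d`, and
`d (10 h - 7) / (10 h + 7) + κ < 1`. The number of the exceptional `m ≤ M` is `O(M / (log M)^A)` for every `A`.
The same is true for the values `f(φ_k(m))` at the iterates `φ_k(m)` of Euler's function for all `k ≤ K(m)`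
together, where `K(m)` tends to infinity, for almost all `m`. With more prime factors allowed the exponent
can be lowered to any `2 θ - 1` with `1/2 ≤ θ < 1` and `h < θ Λ_r`, `r` the number of prime factors; so `κ` can be
close to `1` and `d` large. For instance every odd integer `N` with `|N - φ_k(m)| ≤ φ_k(m)^(14/27 - ε)` is the sum
of a prime and an integer `n` with `n² + 1 = P₃`, in at least `δ 𝔖(N) N / log² N` ways.

The values of such functions have density zero and are taken with very large multiplicities, so this does not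
follow from the number of the exceptional `N` (`MP_0bf1d2_nt.LinearFewExceptions` of helper29) alone. The
theorems on multiplicative functions and on orbits of Euler's function are from the starting libraries
`N733/TG` and `N760/IT`.
-/

set_option autoImplicit false

namespace Pool.Agent.Results.MP_0bf1d2_nt.MultiplicativeMembers

open Polynomial Filter Topology
open Pool.Agent.Results.MP_0bf1d2_nt.LinearFewExceptions (Admissible omega singular Good Lam exceptions)

/-- `f` is multiplicative, positive and of polynomial growth, and for the large primes `p` we have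
`f(p) ≤ M p`, and different large primes have different values -/
structure LinearAtPrimes (f : ℕ → ℕ) : Prop where
  mul : ∀ m n : ℕ, Nat.Coprime m n → f (m * n) = f m * f n
  pos : ∀ m : ℕ, 1 ≤ m → 1 ≤ f m
  growth : ∃ C D : ℕ, ∀ m : ℕ, 1 ≤ m → f m ≤ C * m ^ D
  prime : ∃ P M : ℕ, ∀ p : ℕ, P ≤ p → p.Prime →
    f p ≤ M * p ∧ ∀ q : ℕ, P ≤ q → q.Prime → f q = f p → q = p

/-- the steps of `V` are at least a positive constant, and `V(v) ≤ C v^d`, where `d ≥ 1` -/
structure Expanding (V : ℕ → ℝ) (d : ℝ) : Prop where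
  one_le : 1 ≤ d
  step : ∃ a : ℝ, 0 < a ∧ ∀ v : ℕ, 1 ≤ v → a ≤ V (v + 1) - V v
  growth : ∃ C : ℝ, ∀ v : ℕ, 1 ≤ v → V v ≤ C * (v : ℝ) ^ d

/-- The number `r` of prime factors of `F(n)` and the exponent `e` of the exceptional set: `r = h + 1` and
`e = (10 h - 7) / (10 h + 7)`, or `e = 2 θ - 1`, where `1/2 ≤ θ < 1` and `h < θ Λ_r` (`h` the degree of `F`). -/
def Level (F : ℤ[X]) (r : ℕ) (e : ℝ) : Prop :=
  (r = F.natDegree + 1 ∧ e = ((10 : ℝ) * F.natDegree - 7) / (10 * F.natDegree + 7)) ∨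
    (1 ≤ r ∧ ∃ θ : ℝ, 1 / 2 ≤ θ ∧ θ < 1 ∧ (F.natDegree : ℝ) < θ * Lam r ∧ e = 2 * θ - 1)

/-- At least `δ 𝔖_y(N) N / log² N` integers `n ≥ 1` are such that `N - G(n)` is a prime and `F(n) > 0` has at
most `r` prime factors, all of them at least `N^(1/9)` (`Good`); for every partial product `𝔖_y(N)`, `y ≥ N`, of
the singular series (`singular`). -/
def Rich (F G : ℤ[X]) (r : ℕ) (δ : ℝ) (N : ℕ) : Prop :=
  ∀ y : ℕ, N ≤ y → δ * singular F G N y * (N / Real.log N ^ 2) ≤ ((Good F G r N).ncard : ℝ)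

/-- every admissible `N` with `|N - x| ≤ w` has the property `Rich` -/
def AllRich (F G : ℤ[X]) (r : ℕ) (δ x w : ℝ) : Prop :=
  ∀ N : ℕ, 1 ≤ N → Admissible F G N → |(N : ℝ) - x| ≤ w → Rich F G r δ N

open Classical in
/-- The proportion of the positive integers `m ≤ M` without the property `P` tends to `0`. -/
def AlmostAll (P : ℕ → Prop) : Prop :=
  Tendsto (fun M : ℕ => (((Finset.Icc 1 M).filter (fun m => ¬ P m)).card : ℝ) / M) atTop (𝓝 0)

/-- the exceptions, in the form needed here -/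
lemma few (F G : ℤ[X]) (hF : Irreducible F) (hd : 0 < F.natDegree) (hl : 0 < F.leadingCoeff)
    (hG : G.natDegree = 1) (hG0 : 0 < G.leadingCoeff) (r : ℕ) (e : ℝ) (he : Level F r e) (d κ : ℝ)
    (hd1 : 1 ≤ d) (h1 : d * e + κ < 1) :
    ∃ δ s : ℝ, 0 < δ ∧ 0 ≤ s ∧ d * s + κ < 1 ∧ ∃ A : ℝ, 0 < A ∧ ∀ X : ℕ, 1 ≤ X →
      ({t : ℕ | 1 ≤ t ∧ t ≤ X ∧ Admissible F G t ∧ ¬ Rich F G r δ t}.ncard : ℝ) ≤ A * (X : ℝ) ^ s := by
  classical
  obtain ⟨-, hb, hc⟩ := LinearFewExceptions.result F G hF hd hl hG hG0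
  have key : ∀ δ : ℝ, ∀ X : ℕ,
      {t : ℕ | 1 ≤ t ∧ t ≤ X ∧ Admissible F G t ∧ ¬ Rich F G r δ t}.ncard = exceptions F G r δ X := by
    intro δ X
    unfold exceptions
    rw [← Set.ncard_coe_finset]
    congr 1
    ext t
    simp only [Finset.coe_filter, Finset.mem_Icc, Set.mem_ofPred_eq, Rich, not_forall, not_le, exists_prop]
    tauto
  rcases he with ⟨rfl, rfl⟩ | ⟨hr, θ, hθ0, hθ1, hΛ, rfl⟩
  · obtain ⟨δ, A, hδ, hA, H⟩ := hb
    refine ⟨δ, _, hδ, ?_, h1, A, hA, fun X hX => ?_⟩
    · have : (1 : ℝ) ≤ F.natDegree := by exact_mod_cast hd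
      apply div_nonneg <;> linarith
    · rw [key]
      exact H X hX
  · obtain ⟨ε, hε⟩ : ∃ ε : ℝ, ε = (1 - (d * (2 * θ - 1) + κ)) / (2 * d) := ⟨_, rfl⟩
    have hd0 : 0 < d := by linarith
    have hε0 : 0 < ε := by
      rw [hε]
      apply div_pos (by linarith) (by linarith)
    have hεd : d * ε = (1 - (d * (2 * θ - 1) + κ)) / 2 := by
      rw [hε]
      field_simp
    obtain ⟨δ, A, hδ, hA, H⟩ := hc r hr θ hθ0 hθ1 hΛ ε hε0
    refine ⟨δ, 2 * θ - 1 + ε, hδ, by linarith, ?_, A, hA, fun X hX => ?_⟩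
    · rw [mul_add, hεd]
      linarith
    · rw [key]
      exact H X hX

/-- **Schinzel's hypothesis, `F(n)` almost prime, for all admissible `N` near the values of multiplicative
functions.** Let `F` be irreducible of degree `h ≥ 1` and `G` linear, both with positive leading coefficients,
`Level F r e`, `d ≥ 1`, `κ ≥ 0` and `d e + κ < 1`. There is `δ > 0` such that for every `V` which is expanding with
exponent `d` and every `f` which is linear at the primes:

(1) for every `A`, all large `M` and all `m ≤ M` with at most `M / (log M)^A` exceptions, every admissible `N` with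
`|N - V(f(m))| ≤ f(m)^κ` is `Rich`;

(2) there is `K(m)` tending to infinity such that for almost all `m`, for all `k ≤ K(m)`, every admissible `N` with
`|N - V(f(φ_k(m)))| ≤ f(φ_k(m))^κ` is `Rich`, where `φ_k` is the `k`-th iterate of Euler's function.

Euler's function, the sum of the divisors and the identity are `LinearAtPrimes`, and `v ↦ α v^d` is expanding for
`α > 0`, `d ≥ 1`. -/
theorem result :
    (∀ F G : ℤ[X], Irreducible F → 0 < F.natDegree → 0 < F.leadingCoeff →
      G.natDegree = 1 → 0 < G.leadingCoeff → ∀ (r : ℕ) (e : ℝ), Level F r e →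
      ∀ d κ : ℝ, 1 ≤ d → 0 ≤ κ → d * e + κ < 1 → ∃ δ : ℝ, 0 < δ ∧
      ∀ V : ℕ → ℝ, Expanding V d → ∀ f : ℕ → ℕ, LinearAtPrimes f →
        (∀ A : ℕ, ∃ M₀ : ℕ, ∀ M : ℕ, M₀ ≤ M →
          ({m : ℕ | 1 ≤ m ∧ m ≤ M ∧ ¬ AllRich F G r δ (V (f m)) ((f m : ℝ) ^ κ)}.ncard : ℝ) ≤
            M / Real.log M ^ A) ∧
        (∃ K : ℕ → ℕ, Tendsto K atTop atTop ∧
          AlmostAll (fun m => ∀ k ≤ K m,
            AllRich F G r δ (V (f (Nat.totient^[k] m))) ((f (Nat.totient^[k] m) : ℝ) ^ κ)))) ∧
    LinearAtPrimes Nat.totient ∧ LinearAtPrimes (fun m => ∑ d ∈ m.divisors, d) ∧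
    LinearAtPrimes (fun m => m) ∧
    ∀ α d : ℝ, 0 < α → 1 ≤ d → Expanding (fun v => α * (v : ℝ) ^ d) d := by
  refine ⟨?_, ?_, ?_, ?_, ?_⟩
  · intro F G hF hd hl hG hG0 r e he d κ hd1 hκ h1
    obtain ⟨δ, s, hδ, hs, hs1, A₁, hA₁, H⟩ := few F G hF hd hl hG hG0 r e he d κ hd1 h1
    refine ⟨δ, hδ, fun V hV f hf => ?_⟩
    have hP : ∀ ε : ℝ, 0 < ε → ∃ C : ℝ, ∀ X : ℕ, 1 ≤ X →
        ({t : ℕ | 1 ≤ t ∧ t ≤ X ∧ Admissible F G t ∧ ¬ Rich F G r δ t}.ncard : ℝ) ≤
          C * (X : ℝ) ^ (s + ε) := by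
      intro ε hε
      refine ⟨A₁, fun X hX => (H X hX).trans ?_⟩
      have hX1 : (1 : ℝ) ≤ X := by exact_mod_cast hX
      exact mul_le_mul_of_nonneg_left (Real.rpow_le_rpow_of_exponent_le hX1 (by linarith)) hA₁.le
    refine ⟨fun A => ?_, ?_⟩
    · exact Pool.Agent.N733.TG.keep_good_nat (Admissible F G) (Rich F G r δ) (f := f)
        ⟨hf.mul, hf.pos, hf.growth, hf.prime⟩ (G := V) (d := d) ⟨hV.one_le, hV.step, hV.growth⟩ hs hκ hs1 hP A
    · obtain ⟨K, hK, hK2⟩ := Pool.Agent.N760.IT.orbit_good_nat (Admissible F G) (Rich F G r δ) (f := f)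
        ⟨hf.mul, hf.pos, hf.growth, hf.prime⟩ (G := V) (d := d) ⟨hV.one_le, hV.step, hV.growth⟩ hs hκ hs1 hP
      exact ⟨K, hK, hK2⟩
  · have h := Pool.Agent.N733.TG.lm_totient
    exact ⟨h.mul, h.pos, h.growth, h.prime⟩
  · have h := Pool.Agent.N733.TG.lm_sigma
    exact ⟨h.mul, h.pos, h.growth, h.prime⟩
  · have h := Pool.Agent.N760.IT.lm_id
    exact ⟨h.mul, h.pos, h.growth, h.prime⟩
  · intro α d hα hd
    have h := Pool.Agent.N733.TG.expanding_pow hα hd
    exact ⟨h.one_le, h.step, h.growth⟩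

end Pool.Agent.Results.MP_0bf1d2_nt.MultiplicativeMembers
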