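import Pool.Agent.J4.H74.OneScale
import Pool.Agent.Results.MP_31d0eb_nt.TranslatesOfSets

/-!
# Primes in short intervals `(x, x + H]`, `H ≥ N^ε`, at the points `x = a + b`: `a` in an arbitrary set of
`N^(1-κ)` integers, `b` near a value of a multiplicative function

`π(x, H)` is the number of the primes in `(x, x + H]`. Let `f` be a multiplicative function from the class
described below, for example Euler's function or the sum of the divisors, and let `A` be an ARBITRARY set
of at least `N^(1-κ)` integers in `[1, N]`. For all `m ≤ M` with at most `M / (log M)^U` exceptions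
(`N` between `M` and `M^(1+κ)`) the following holds for ALL the integers `b` in `[1, N]` with
`|b - f(m)| ≤ f(m)^κ` and for ALL real `H` with `N^ε ≤ H ≤ N`: the mean value of `π(x, H) log x / H` over
the points `x = a + b`, `a ∈ A`, lies between `c` and `6`, and `π(x, H) log x / H ≥ c` for at least `c |A|`
of them. So the short intervals `(a + φ(m), a + φ(m) + N^ε]` contain the expected number of primes, up to
a constant factor, on average over `a ∈ A`, for almost all `m` and every given set `A`.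

The set `A` may have density zero (`N^(1-κ)` elements), the values of `f` have density zero and are taken
with very large multiplicities, and `b` runs over all the integers near the values; so this does not
follow from the number of the exceptional `b` in the starting theorem `TranslatesOfSets`. The exceptional
set depends on `N` and `A`; the theorem on multiplicative functions is used in its one scale form
(`avoid1` of `Pool.Agent.N733.TG`).
-/

set_option autoImplicit false

namespace Pool.Agent.Results.MP_31d0eb_nt.SetsPlusMultiplicativeValues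

/-- `f` is multiplicative, positive and of polynomial growth, and for the large primes `p` we have
`f(p) ≤ M p`, and different large primes have different values -/
structure LinearAtPrimes (f : ℕ → ℕ) : Prop where
  mul : ∀ m n : ℕ, Nat.Coprime m n → f (m * n) = f m * f n
  pos : ∀ m : ℕ, 1 ≤ m → 1 ≤ f m
  growth : ∃ C D : ℕ, ∀ m : ℕ, 1 ≤ m → f m ≤ C * m ^ D
  prime : ∃ P M : ℕ, ∀ p : ℕ, P ≤ p → p.Prime →
    f p ≤ M * p ∧ ∀ q : ℕ, P ≤ q → q.Prime → f q = f p → q = p

/-- `π(x, H) log x / H`, where `π(x, H)` is the number of the primes in `(x, x + H]` -/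
noncomputable def density (x : ℕ) (H : ℝ) : ℝ :=
  ((Nat.primeCounting ⌊(x : ℝ) + H⌋₊ : ℝ) - Nat.primeCounting x) * Real.log x / H

/-- the mean value of `π(x, H) log x / H` over `x = a + b`, `a ∈ A`, lies between `c` and `6`, and
`π(x, H) log x / H ≥ c` for at least `c |A|` of them -/
def Right (c : ℝ) (A : Finset ℕ) (b : ℕ) (H : ℝ) : Prop :=
  c ≤ (∑ a ∈ A, density (a + b) H) / A.card ∧ (∑ a ∈ A, density (a + b) H) / A.card ≤ 6 ∧
    c * A.card ≤ (Set.ncard {a : ℕ | a ∈ A ∧ c ≤ density (a + b) H} : ℝ)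

/-- **Primes in short intervals at the points `a + b`, `b` near values of multiplicative functions.**
There is `c > 0` such that for every `0 < ε < 1` there is `κ > 0` with the following property. Let `f` be
`LinearAtPrimes` and `U` a natural number. For all large `M`, all `N` with `M ≤ N ≤ M^(1+κ)` and every set
`A` of at least `N^(1-κ)` integers in `[1, N]`, for all `m ≤ M` but at most `M / (log M)^U`: for all
integers `b` in `[1, N]` with `|b - f(m)| ≤ f(m)^κ` and all real `H` with `N^ε ≤ H ≤ N` the average of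
`π(x, H) log x / H` over the points `x = a + b`, `a ∈ A`, lies between `c` and `6`, and
`π(x, H) log x / H ≥ c` for at least `c |A|` of them. Euler's function and the sum of the divisors are
`LinearAtPrimes`. -/
theorem result :
    (∃ c : ℝ, 0 < c ∧ ∀ ε : ℝ, 0 < ε → ε < 1 → ∃ κ : ℝ, 0 < κ ∧
      ∀ f : ℕ → ℕ, LinearAtPrimes f → ∀ U : ℕ, ∃ M₀ : ℕ, ∀ M : ℕ, M₀ ≤ M →
        ∀ N : ℕ, M ≤ N → (N : ℝ) ≤ (M : ℝ) ^ (1 + κ) →
        ∀ A : Finset ℕ, A ⊆ Finset.Icc 1 N → (N : ℝ) ^ (1 - κ) ≤ A.card →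
        (Set.ncard {m : ℕ | 1 ≤ m ∧ m ≤ M ∧ ¬ ∀ b : ℕ, 1 ≤ b → b ≤ N → |(b : ℝ) - f m| ≤ (f m : ℝ) ^ κ →
          ∀ H : ℝ, (N : ℝ) ^ ε ≤ H → H ≤ N → Right c A b H} : ℝ) ≤ M / Real.log M ^ U) ∧
    LinearAtPrimes Nat.totient ∧ LinearAtPrimes (fun m => ∑ d ∈ m.divisors, d) := by
  refine ⟨?_, ?_, ?_⟩
  · obtain ⟨c, hc, hmain⟩ := Pool.Agent.Results.MP_31d0eb_nt.TranslatesOfSets.result
    refine ⟨c, hc, fun ε hε hε1 => ?_⟩
    obtain ⟨-, κb, hκb, N₀, hN₀⟩ := hmain ε hε hε1
    obtain ⟨κ₀, hκ₀⟩ : ∃ κ₀, κ₀ = min κb 1 := ⟨_, rfl⟩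
    have hκ₀0 : 0 < κ₀ := by rw [hκ₀]; exact lt_min hκb one_pos
    have hκ₀1 : κ₀ ≤ 1 := by rw [hκ₀]; exact min_le_right _ _
    have hκ₀b : κ₀ ≤ κb := by rw [hκ₀]; exact min_le_left _ _
    refine ⟨κ₀ / 4, by positivity, fun f hf U => ?_⟩
    obtain ⟨M₀, hM₀⟩ := Pool.Agent.J4.H74.OneScale.one_scale hκ₀0 hκ₀1 (κ := κ₀ / 4) (by positivity) le_rfl
      (f := f) ⟨hf.mul, hf.pos, hf.growth, hf.prime⟩ U
    refine ⟨max (max M₀ N₀) 1, fun M hM N hMN hN A hA hAN => ?_⟩
    have hM1 : M₀ ≤ M := (le_max_left _ _).trans ((le_max_left _ _).trans hM)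
    have hM2 : N₀ ≤ M := (le_max_right _ _).trans ((le_max_left _ _).trans hM)
    have hM3 : 1 ≤ M := (le_max_right _ _).trans hM
    have hN1 : (1 : ℝ) ≤ N := by exact_mod_cast hM3.trans hMN
    obtain ⟨E, hE1, hE2, hE3⟩ := hN₀ N (hM2.trans hMN) A hA
      ((Real.rpow_le_rpow_of_exponent_le hN1 (by linarith)).trans hAN)
    have hE4 : (E.card : ℝ) ≤ (N : ℝ) ^ (1 - κ₀) :=
      hE2.trans (Real.rpow_le_rpow_of_exponent_le hN1 (by linarith))
    refine le_trans ?_ (hM₀ M hM1 N hN E hE4)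
    have hfin : {m : ℕ | 1 ≤ m ∧ m ≤ M ∧ ∃ b ∈ E, |(b : ℝ) - f m| ≤ (f m : ℝ) ^ (κ₀ / 4)}.Finite := by
      refine (Set.finite_Icc 1 M).subset ?_
      intro m hm
      exact ⟨hm.1, hm.2.1⟩
    have hsub : {m : ℕ | 1 ≤ m ∧ m ≤ M ∧ ¬ ∀ b : ℕ, 1 ≤ b → b ≤ N →
          |(b : ℝ) - f m| ≤ (f m : ℝ) ^ (κ₀ / 4) →
          ∀ H : ℝ, (N : ℝ) ^ ε ≤ H → H ≤ N → Right c A b H} ⊆
        {m : ℕ | 1 ≤ m ∧ m ≤ M ∧ ∃ b ∈ E, |(b : ℝ) - f m| ≤ (f m : ℝ) ^ (κ₀ / 4)} := by
      rintro m ⟨h1, h2, h3⟩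
      refine ⟨h1, h2, ?_⟩
      by_contra hcon
      push Not at hcon
      apply h3
      intro b hb1 hbN hbm H hH1 hH2
      have hbE : b ∉ E := fun hb => absurd hbm (not_le.2 (hcon b hb))
      exact hE3 b (Finset.mem_Icc.2 ⟨hb1, hbN⟩) hbE H hH1 hH2
    exact_mod_cast Set.ncard_le_ncard hsub hfin
  · have h := Pool.Agent.N733.TG.lm_totient
    exact ⟨h.mul, h.pos, h.growth, h.prime⟩
  · have h := Pool.Agent.N733.TG.lm_sigma
    exact ⟨h.mul, h.pos, h.growth, h.prime⟩

end Pool.Agent.Results.MP_31d0eb_nt.SetsPlusMultiplicativeValues
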